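import Pool.Agent.QSB.StmtsS

set_option autoImplicit false

/-! # Squad QSB, row RYS: proportional roots -/

namespace Pool.Agent.QSB.H46

open Matrix Finset Pool.Agent.QSX

theorem rys (gwb : GwbStmt) (int : IntStmt) : RysStmt := by
  rintro X ⟨S⟩ ρ c ⟨x, hx⟩ ⟨y, hy⟩
  obtain ⟨hgx, hpx⟩ := (gwb X S).1 ρ x hx
  obtain ⟨hgy, hpy⟩ := (gwb X S).1 (c • ρ) y hy
  have hc : 0 < c := by
    have h1 : (c • ρ) S.a₀ = c * ρ S.a₀ := rfl
    rw [h1] at hpy
    by_contra h
    push Not at h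
    nlinarith [mul_nonneg (neg_nonneg.2 h) hpx.le]
  have hρ : ρ ≠ 0 := by
    rintro rfl
    simp at hpx
  have hcρ : c • ρ ≠ 0 := smul_ne_zero hc.ne' hρ
  have hN := ip_self_pos hρ
  obtain ⟨n, hn⟩ := (int X S ρ (c • ρ) x y hgx hρ hgy).1
  obtain ⟨k, hk⟩ := (int X S (c • ρ) ρ y x hgy hcρ hgx).1
  rw [ip_smul_left] at hn
  rw [ip_smul_right, ip_smul_left, ip_smul_right] at hk
  have h1 : 2 * c = (n : ℝ) := by
    have : (2 * c) * ip X ρ ρ = (n : ℝ) * ip X ρ ρ := by linarith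
    exact mul_right_cancel₀ hN.ne' this
  have h2 : 2 = (k : ℝ) * c := by
    have : 2 * (c * ip X ρ ρ) = ((k : ℝ) * c) * (c * ip X ρ ρ) := by
      rw [hk]
      ring
    exact mul_right_cancel₀ (mul_pos hc hN).ne' this
  have h3 : (n : ℝ) * k = 4 := by
    rw [← h1]
    linarith
  have h4 : n * k = 4 := by exact_mod_cast h3
  have hn0 : 0 < n := by
    have : (0 : ℝ) < (n : ℝ) := by rw [← h1]; linarith
    exact_mod_cast this
  have hk0 : 0 < k := by
    by_contra h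
    push Not at h
    nlinarith
  have hn4 : n ≤ 4 := by nlinarith
  have hcn : c = (n : ℝ) / 2 := by linarith
  have h5 : n = 1 ∨ n = 2 ∨ n = 3 ∨ n = 4 := by omega
  rcases h5 with rfl | rfl | rfl | rfl
  · right; right
    rw [hcn]
    norm_num
  · left
    rw [hcn]
    norm_num
  · omega
  · right; left
    rw [hcn]
    norm_num

end Pool.Agent.QSB.H46
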